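import Mathlib

open MeasureTheory Set Filter Topology
open scoped ENNReal

namespace Pool.Agent.Results.MP_a7495c_an.DiscreteBernsteinMarkov

/-- `ℝ^d` with its Euclidean norm. -/
abbrev E (d : ℕ) : Type := EuclideanSpace ℝ (Fin d)

open Classical in
/-- The function `f(y) = exp(-∑_{j=2}^n |y - x_j|^{-α})`, with `f(x_j) = 0`; the `n - 1` points
are indexed by `Fin (n - 1)`. -/
noncomputable def rieszExp {d n : ℕ} (α : ℝ) (x : Fin (n - 1) → E d) (y : E d) : ℝ :=
  if ∃ j, y = x j then 0 else Real.exp (-∑ j, ‖y - x j‖ ^ (-α))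

/-- `K` has positive Riesz `α`-capacity: some Borel probability measure on `K` has finite
energy. -/
def PositiveCapacity {d : ℕ} (α : ℝ) (K : Set (E d)) : Prop :=
  ∃ ν : Measure (E d), IsProbabilityMeasure ν ∧ ν Kᶜ = 0 ∧
    ∫⁻ x, ∫⁻ y, ‖x - y‖ₑ ^ (-α) ∂ν ∂ν < ⊤

/-- `μ` is a finite measure on `K` with the (unweighted) Riesz Bernstein-Markov property. -/
def HasBM {d : ℕ} (α : ℝ) (K : Set (E d)) (μ : Measure (E d)) : Prop :=
  IsFiniteMeasure μ ∧ μ Kᶜ = 0 ∧ ∃ M : ℕ → ℝ, (∀ n, 0 < M n) ∧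
    Tendsto (fun n : ℕ => M n ^ (1 / (n : ℝ))) atTop (𝓝 1) ∧
    ∀ n : ℕ, 2 ≤ n → ∀ x : Fin (n - 1) → E d, (∀ j, x j ∈ K) →
      (⨆ y : K, |rieszExp α x y|) ≤ M n * ∫ y in K, rieszExp α x y ∂μ

/-- `μ` is discrete on `K`: a countable sum of point masses `c_i > 0` at points of `K`. -/
def IsDiscreteOn {d : ℕ} (K : Set (E d)) (μ : Measure (E d)) : Prop :=
  ∃ (ι : Type) (_ : Countable ι) (z : ι → E d) (c : ι → ℝ), (∀ i, z i ∈ K) ∧ (∀ i, 0 < c i) ∧
    μ = Measure.sum fun i => ENNReal.ofReal (c i) • Measure.dirac (z i)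

/-! ### The one-variable profile -/

/-- `φ(t) = exp(-t^{-α})` for `t > 0` and `0` for `t ≤ 0`. -/
noncomputable def prof (α t : ℝ) : ℝ := if t ≤ 0 then 0 else Real.exp (-t ^ (-α))

lemma prof_nonneg (α t : ℝ) : 0 ≤ prof α t := by
  unfold prof; split_ifs <;> positivity

lemma prof_le_one (α t : ℝ) : prof α t ≤ 1 := by
  unfold prof
  split_ifs with h
  · exact zero_le_one
  · rw [Real.exp_le_one_iff]
    have : 0 ≤ t ^ (-α) := Real.rpow_nonneg (by linarith) _
    linarith

lemma prof_continuous {α : ℝ} (hα : 0 < α) : Continuous (prof α) := by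
  rw [continuous_iff_continuousAt]
  intro t
  rcases lt_trichotomy t 0 with h | h | h
  · have : prof α =ᶠ[𝓝 t] fun _ => (0 : ℝ) := by
      filter_upwards [gt_mem_nhds h] with s hs
      unfold prof
      rw [if_pos hs.le]
    exact this.continuousAt
  · subst h
    have h0 : prof α 0 = 0 := by unfold prof; simp
    rw [ContinuousAt, h0]
    have hlim : Tendsto (fun s : ℝ => |s| ^ α) (𝓝 0) (𝓝 0) := by
      have h1 : ContinuousAt (fun s : ℝ => |s| ^ α) 0 :=
        (continuous_abs.continuousAt).rpow_const (Or.inr hα.le)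
      have h2 : (|(0 : ℝ)|) ^ α = 0 := by rw [abs_zero, Real.zero_rpow hα.ne']
      rw [ContinuousAt, h2] at h1
      exact h1
    refine squeeze_zero (fun s => prof_nonneg α s) (fun s => ?_) hlim
    unfold prof
    split_ifs with h
    · positivity
    · push Not at h
      rw [abs_of_pos h]
      have h1 : 0 < s ^ (-α) := Real.rpow_pos_of_pos h _
      have h2 : s ^ (-α) ≤ Real.exp (s ^ (-α)) := by
        have := Real.add_one_le_exp (s ^ (-α)); linarith
      rw [Real.exp_neg]
      have h3 : s ^ α = (s ^ (-α))⁻¹ := by rw [Real.rpow_neg h.le, inv_inv]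
      rw [h3]
      exact inv_anti₀ h1 h2
  · have : prof α =ᶠ[𝓝 t] fun s => Real.exp (-s ^ (-α)) := by
      filter_upwards [lt_mem_nhds h] with s hs
      unfold prof
      rw [if_neg (not_le.2 hs)]
    refine ContinuousAt.congr ?_ this.symm
    have h1 : ContinuousAt (fun s : ℝ => s ^ (-α)) t :=
      Real.continuousAt_rpow_const t (-α) (Or.inl h.ne')
    exact (Real.continuous_exp.continuousAt).comp h1.neg

lemma rieszExp_eq {d n : ℕ} {α : ℝ} (x : Fin (n - 1) → E d) (y : E d) :
    rieszExp α x y = ∏ j, prof α ‖y - x j‖ := by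
  unfold rieszExp
  split_ifs with h
  · obtain ⟨j, hj⟩ := h
    symm
    refine Finset.prod_eq_zero (Finset.mem_univ j) ?_
    unfold prof
    rw [hj, sub_self, norm_zero, if_pos le_rfl]
  · push Not at h
    rw [← Finset.sum_neg_distrib, Real.exp_sum]
    refine Finset.prod_congr rfl fun j _ => ?_
    unfold prof
    rw [if_neg (not_le.2 (norm_pos_iff.2 (sub_ne_zero.2 (h j))))]

lemma rieszExp_continuous {d n : ℕ} {α : ℝ} (hα : 0 < α) :
    Continuous fun p : (Fin (n - 1) → E d) × E d => rieszExp α p.1 p.2 := by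
  simp only [rieszExp_eq]
  refine continuous_finsetProd _ fun j _ => ?_
  exact (prof_continuous hα).comp (by fun_prop)

lemma rieszExp_nonneg {d n : ℕ} {α : ℝ} (x : Fin (n - 1) → E d) (y : E d) :
    0 ≤ rieszExp α x y := by
  rw [rieszExp_eq]
  exact Finset.prod_nonneg fun j _ => prof_nonneg _ _

lemma rieszExp_le_one {d n : ℕ} {α : ℝ} (x : Fin (n - 1) → E d) (y : E d) :
    rieszExp α x y ≤ 1 := by
  rw [rieszExp_eq]
  exact Finset.prod_le_one (fun j _ => prof_nonneg _ _) fun j _ => prof_le_one _ _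

lemma rieszExp_pos {d n : ℕ} {α : ℝ} (x : Fin (n - 1) → E d) (y : E d) (h : ∀ j, y ≠ x j) :
    0 < rieszExp α x y := by
  unfold rieszExp
  rw [if_neg (by push Not; exact h)]
  positivity

/-! ### Assembling a discrete measure -/

lemma rpow_tendsto {M : ℕ → ℝ} (hM : ∀ n, 0 < M n)
    (h : Tendsto (fun n : ℕ => Real.log (M n) / n) atTop (𝓝 0)) :
    Tendsto (fun n : ℕ => M n ^ (1 / (n : ℝ))) atTop (𝓝 1) := by
  have h1 : (fun n : ℕ => M n ^ (1 / (n : ℝ))) = fun n : ℕ => Real.exp (Real.log (M n) / n) := by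
    funext n
    rw [Real.rpow_def_of_pos (hM n)]
    congr 1
    ring
  rw [h1, ← Real.exp_zero]
  exact (Real.continuous_exp.tendsto 0).comp h

lemma log_tendsto {M : ℕ → ℝ} (hM : ∀ n, 0 < M n)
    (h : Tendsto (fun n : ℕ => M n ^ (1 / (n : ℝ))) atTop (𝓝 1)) :
    Tendsto (fun n : ℕ => Real.log (M n) / n) atTop (𝓝 0) := by
  have h1 : (fun n : ℕ => Real.log (M n) / n) = fun n : ℕ => Real.log (M n ^ (1 / (n : ℝ))) := by
    funext n
    rw [Real.log_rpow (hM n)]
    ring
  rw [h1, ← Real.log_one]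
  exact (Real.continuousAt_log one_ne_zero).tendsto.comp h

lemma log_succ_tendsto : Tendsto (fun n : ℕ => Real.log ((n : ℝ) + 1) / n) atTop (𝓝 0) := by
  have h1 : Tendsto (fun x : ℝ => Real.log x / x) atTop (𝓝 0) := by
    have := Real.isLittleO_log_id_atTop.tendsto_div_nhds_zero
    simpa using this
  have h2 : Tendsto (fun n : ℕ => Real.log ((n : ℝ) + 1) / ((n : ℝ) + 1)) atTop (𝓝 0) :=
    h1.comp ((tendsto_natCast_atTop_atTop (R := ℝ)).atTop_add tendsto_const_nhds)
  have h3 : Tendsto (fun n : ℕ => ((n : ℝ) + 1) / n) atTop (𝓝 1) := by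
    have h4 : Tendsto (fun n : ℕ => 1 + 1 / (n : ℝ)) atTop (𝓝 (1 + 0)) :=
      tendsto_const_nhds.add tendsto_one_div_atTop_nhds_zero_nat
    rw [add_zero] at h4
    refine h4.congr' ?_
    filter_upwards [eventually_gt_atTop 0] with n hn
    have : (n : ℝ) ≠ 0 := by positivity
    field_simp
  have h5 := h2.mul h3
  rw [zero_mul] at h5
  refine h5.congr' ?_
  filter_upwards [eventually_gt_atTop 0] with n hn
  have h6 : (n : ℝ) ≠ 0 := by positivity
  have h7 : (n : ℝ) + 1 ≠ 0 := by positivity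
  field_simp

/-- The assembly of a discrete Bernstein-Markov measure from a discrete measure for each `n`. -/
lemma assemble {d : ℕ} {α : ℝ} (hα : 0 < α) {K : Set (E d)} (hK : IsCompact K)
    (hKne : K.Nonempty) (z : ℕ → ℕ → E d) (hz : ∀ n k, z n k ∈ K) (w : ℕ → ℕ → ℝ)
    (hw : ∀ n k, 0 < w n k) (hws : ∀ n, Summable (w n)) (W : ℝ) (hW : ∀ n, ∑' k, w n k ≤ W)
    (L : ℕ → ℝ) (hL : ∀ n, 0 < L n) (hLsub : Tendsto (fun n : ℕ => Real.log (L n) / n) atTop (𝓝 0))
    (h : ∀ n : ℕ, 2 ≤ n → ∀ x : Fin (n - 1) → E d, (∀ j, x j ∈ K) → ∀ y ∈ K,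
      rieszExp α x y ≤ L n * ∑' k, w n k * rieszExp α x (z n k)) :
    ∃ μ : Measure (E d), HasBM α K μ ∧ IsDiscreteOn K μ := by
  let c : ℕ × ℕ → ℝ := fun p => w p.1 p.2 / ((p.1 : ℝ) + 1) ^ 2
  have hc : ∀ p, 0 < c p := fun p => div_pos (hw _ _) (by positivity)
  have hc1 : ∀ n : ℕ, Summable fun k : ℕ => c (n, k) := by
    intro n
    have h0 : Summable fun k : ℕ => w n k / ((n : ℝ) + 1) ^ 2 := (hws n).div_const _
    exact h0
  have hcs : Summable c := by
    rw [summable_prod_of_nonneg (fun p => (hc p).le)]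
    refine ⟨hc1, ?_⟩
    have hs : Summable fun n : ℕ => W / ((n : ℝ) + 1) ^ 2 := by
      have h1 : Summable fun n : ℕ => 1 / ((n : ℝ)) ^ 2 :=
        Real.summable_one_div_nat_pow.2 (by norm_num)
      have h2 := ((summable_nat_add_iff 1).2 h1).mul_left W
      refine h2.congr fun n => ?_
      push_cast
      ring
    refine Summable.of_nonneg_of_le (fun n => tsum_nonneg fun k => (hc _).le) (fun n => ?_) hs
    simp only [c]
    rw [tsum_div_const]
    exact div_le_div_of_nonneg_right (hW n) (by positivity)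
  let μ : Measure (E d) := Measure.sum fun p : ℕ × ℕ =>
    ENNReal.ofReal (c p) • Measure.dirac (z p.1 p.2)
  have hμfin : IsFiniteMeasure μ := by
    refine ⟨?_⟩
    simp only [μ]
    rw [Measure.sum_apply _ MeasurableSet.univ]
    simp only [Measure.smul_apply, measure_univ, smul_eq_mul, mul_one]
    rw [← ENNReal.ofReal_tsum_of_nonneg (fun p => (hc p).le) hcs]
    exact ENNReal.ofReal_lt_top
  have hμK : μ Kᶜ = 0 := by
    simp only [μ]
    rw [Measure.sum_apply _ hK.measurableSet.compl, ENNReal.tsum_eq_zero]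
    intro p
    rw [Measure.smul_apply, Measure.dirac_apply' _ hK.measurableSet.compl,
      indicator_of_notMem (by rw [Set.mem_compl_iff, not_not]; exact hz _ _), smul_zero]
  have hint : ∀ (n : ℕ) (x : Fin (n - 1) → E d),
      ∫ y in K, rieszExp α x y ∂μ = ∑' p : ℕ × ℕ, c p * rieszExp α x (z p.1 p.2) := by
    intro n x
    have hr : μ.restrict K = μ := by
      refine Measure.restrict_eq_self_of_ae_mem ?_
      rw [ae_iff]
      exact hμK
    have hi : Integrable (fun y => rieszExp α x y) μ := by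
      refine Integrable.of_bound (C := 1) ?_ ?_
      · exact ((rieszExp_continuous hα).comp (Continuous.prodMk_right x)).aestronglyMeasurable
      · exact Eventually.of_forall fun y => by
          rw [Real.norm_of_nonneg (rieszExp_nonneg x y)]; exact rieszExp_le_one x y
    rw [hr]
    simp only [μ] at hi ⊢
    rw [integral_sum_measure hi]
    refine tsum_congr fun p => ?_
    rw [integral_smul_measure, integral_dirac, ENNReal.toReal_ofReal (hc p).le, smul_eq_mul]
  refine ⟨μ, ⟨hμfin, hμK, fun n => ((n : ℝ) + 1) ^ 2 * L n, fun n => ?_, ?_, ?_⟩, ?_⟩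
  · have := hL n
    positivity
  · refine rpow_tendsto (fun n => ?_) ?_
    · have := hL n
      positivity
    · have h1 := (log_succ_tendsto.const_mul 2).add hLsub
      rw [mul_zero, add_zero] at h1
      refine h1.congr fun n => ?_
      rw [Real.log_mul (by positivity) (hL n).ne', Real.log_pow]
      push_cast
      ring
  · intro n hn x hx
    have hne : Nonempty K := hKne.to_subtype
    refine ciSup_le fun y => ?_
    rw [abs_of_nonneg (rieszExp_nonneg x y), hint]
    have h1 := h n hn x hx y y.2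
    have hsum : Summable fun p : ℕ × ℕ => c p * rieszExp α x (z p.1 p.2) := by
      refine Summable.of_nonneg_of_le (fun p => mul_nonneg (hc p).le (rieszExp_nonneg _ _))
        (fun p => ?_) hcs
      exact mul_le_of_le_one_right (hc p).le (rieszExp_le_one _ _)
    have hinj : Function.Injective fun k : ℕ => ((n, k) : ℕ × ℕ) := fun a b hab => by
      simpa using hab
    have h2 := tsum_comp_le_tsum_of_inj hsum
      (fun p => mul_nonneg (hc p).le (rieszExp_nonneg _ _)) hinj
    have h3 : ∑' k, w n k * rieszExp α x (z n k) = ((n : ℝ) + 1) ^ 2 *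
        ∑' k, ((fun p : ℕ × ℕ => c p * rieszExp α x (z p.1 p.2)) ∘ fun k : ℕ => (n, k)) k := by
      rw [← tsum_mul_left]
      refine tsum_congr fun k => ?_
      simp only [Function.comp, c]
      have : ((n : ℝ) + 1) ^ 2 ≠ 0 := by positivity
      field_simp
    calc rieszExp α x y ≤ L n * ∑' k, w n k * rieszExp α x (z n k) := h1
      _ = L n * (((n : ℝ) + 1) ^ 2 * ∑' k, ((fun p : ℕ × ℕ =>
            c p * rieszExp α x (z p.1 p.2)) ∘ fun k : ℕ => (n, k)) k) := by rw [h3]
      _ ≤ L n * (((n : ℝ) + 1) ^ 2 * ∑' p : ℕ × ℕ, c p * rieszExp α x (z p.1 p.2)) := by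
          have := (hL n).le
          gcongr
      _ = _ := by ring
  · exact ⟨ℕ × ℕ, inferInstance, fun p => z p.1 p.2, c, fun p => hz _ _, hc, rfl⟩

/-! ### Q2 : from any Bernstein-Markov measure to a discrete one -/

lemma q2_finite {d : ℕ} {α : ℝ} (hα : 0 < α) {K : Set (E d)} (hK : K.Finite)
    (hKne : K.Nonempty) : ∃ μ : Measure (E d), HasBM α K μ ∧ IsDiscreteOn K μ := by
  have : Nonempty K := hKne.to_subtype
  have hfin : Finite K := hK.to_subtype
  obtain ⟨e, he⟩ := exists_surjective_nat K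
  choose g hg using he
  obtain ⟨m, hm⟩ := (Set.finite_range g).bddAbove
  refine assemble hα hK.isCompact hKne (fun _ k => (e k : E d)) (fun _ k => (e k).2)
    (fun _ k => (1 / 2) ^ k) (fun _ k => by positivity) (fun _ => summable_geometric_two) 2
    (fun _ => tsum_geometric_two.le) (fun _ => 2 ^ m) (fun _ => by positivity) ?_ ?_
  · have := (tendsto_const_div_atTop_nhds_zero_nat (Real.log (2 ^ m)))
    exact this
  · intro n _ x _ y hy
    have h1 : (e (g ⟨y, hy⟩) : E d) = y := by rw [hg]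
    have h2 : g ⟨y, hy⟩ ≤ m := hm (mem_range_self _)
    have hs : Summable fun k : ℕ => (1 / 2 : ℝ) ^ k * rieszExp α x (e k) := by
      refine Summable.of_nonneg_of_le (fun k => mul_nonneg (by positivity) (rieszExp_nonneg _ _))
        (fun k => ?_) summable_geometric_two
      exact mul_le_of_le_one_right (by positivity) (rieszExp_le_one _ _)
    have h3 := hs.le_tsum (g ⟨y, hy⟩)
      (fun k _ => mul_nonneg (by positivity) (rieszExp_nonneg _ _))
    rw [h1] at h3
    have h4 : (1 : ℝ) ≤ 2 ^ m * (1 / 2) ^ g ⟨y, hy⟩ := by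
      have h5 : (1 / 2 : ℝ) ^ m ≤ (1 / 2) ^ g ⟨y, hy⟩ :=
        pow_le_pow_of_le_one (by norm_num) (by norm_num) h2
      calc (1 : ℝ) = 2 ^ m * (1 / 2) ^ m := by rw [← mul_pow]; norm_num
        _ ≤ _ := by gcongr
    calc rieszExp α x y = 1 * rieszExp α x y := (one_mul _).symm
      _ ≤ (2 ^ m * (1 / 2) ^ g ⟨y, hy⟩) * rieszExp α x y :=
          mul_le_mul_of_nonneg_right h4 (rieszExp_nonneg _ _)
      _ = 2 ^ m * ((1 / 2) ^ g ⟨y, hy⟩ * rieszExp α x y) := by ring
      _ ≤ _ := by gcongr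

/-- For infinite compact `K` the sup norms of the functions of degree `n` are bounded below. -/
lemma sup_lower {d n : ℕ} {α : ℝ} (hα : 0 < α) {K : Set (E d)} (hK : IsCompact K)
    (hinf : K.Infinite) : ∃ m : ℝ, 0 < m ∧ ∀ x : Fin (n - 1) → E d, (∀ j, x j ∈ K) →
      m ≤ sSup (rieszExp α x '' K) := by
  have hcont : Continuous fun x : Fin (n - 1) → E d => sSup (rieszExp α x '' K) :=
    hK.continuous_sSup (rieszExp_continuous hα)
  have hcomp : IsCompact (Set.univ.pi fun _ : Fin (n - 1) => K) := isCompact_univ_pi fun _ => hK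
  obtain ⟨y0, hy0⟩ := hinf.nonempty
  have hne : (Set.univ.pi fun _ : Fin (n - 1) => K).Nonempty := ⟨fun _ => y0, fun _ _ => hy0⟩
  obtain ⟨x0, hx0, hmin⟩ := hcomp.exists_isMinOn hne hcont.continuousOn
  refine ⟨sSup (rieszExp α x0 '' K), ?_, fun x hx => hmin (fun j _ => hx j)⟩
  obtain ⟨y, hy, hyx⟩ := hinf.exists_notMem_finite (Set.finite_range x0)
  have h1 : 0 < rieszExp α x0 y := rieszExp_pos x0 y fun j h => hyx ⟨j, h.symm⟩
  refine lt_of_lt_of_le h1 (le_csSup ?_ (mem_image_of_mem _ hy))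
  refine ⟨1, ?_⟩
  rintro _ ⟨z, _, rfl⟩
  exact rieszExp_le_one _ _

lemma q2_infinite {d : ℕ} {α : ℝ} (hα : 0 < α) {K : Set (E d)} (hK : IsCompact K)
    (hinf : K.Infinite) (μ : Measure (E d)) (hμ : HasBM α K μ) :
    ∃ μ' : Measure (E d), HasBM α K μ' ∧ IsDiscreteOn K μ' := by
  obtain ⟨hfin, hμK, M, hM, hMt, hBM⟩ := hμ
  have hKne : K.Nonempty := hinf.nonempty
  have hKn : Nonempty K := hKne.to_subtype
  -- a dense sequence in `K`
  obtain ⟨e', he'⟩ := TopologicalSpace.exists_dense_seq K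
  let e : ℕ → E d := fun k => (e' k : E d)
  have heK : ∀ k, e k ∈ K := fun k => (e' k).2
  have hcover : ∀ δ : ℝ, 0 < δ → ∀ y ∈ K, ∃ k, dist y (e k) < δ := by
    intro δ hδ y hy
    obtain ⟨k, hk⟩ := he'.exists_dist_lt ⟨y, hy⟩ hδ
    exact ⟨k, hk⟩
  set T : ℝ := μ.real univ with hT
  have hT0 : 0 ≤ T := measureReal_nonneg
  -- the weights for a given `n`
  have key : ∀ n : ℕ, ∃ w : ℕ → ℝ, (∀ k, 0 < w k) ∧ Summable w ∧ ∑' k, w k ≤ T + 2 ∧
      (2 ≤ n → ∀ x : Fin (n - 1) → E d, (∀ j, x j ∈ K) → ∀ y ∈ K,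
        rieszExp α x y ≤ (2 * M n) * ∑' k, w k * rieszExp α x (e k)) := by
    intro n
    obtain ⟨m, hm, hlow⟩ := sup_lower (n := n) hα hK hinf
    have hMn := hM n
    set η : ℝ := m / (2 * M n * (T + 1)) with hη
    have hη0 : 0 < η := by positivity
    -- uniform continuity
    have hcomp : IsCompact ((Set.univ.pi fun _ : Fin (n - 1) => K) ×ˢ K) :=
      (isCompact_univ_pi fun _ => hK).prod hK
    have huc := hcomp.uniformContinuousOn_of_continuous
      (rieszExp_continuous (n := n) (d := d) hα).continuousOn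
    rw [Metric.uniformContinuousOn_iff] at huc
    obtain ⟨δ, hδ, huc⟩ := huc η hη0
    let B : ℕ → Set (E d) := disjointed fun k => Metric.ball (e k) δ
    have hBm : ∀ k, MeasurableSet (B k) := fun k =>
      MeasurableSet.disjointed (fun k => measurableSet_ball) k
    have hBd : Pairwise (Function.onFun Disjoint B) := disjoint_disjointed _
    have hBsub : ∀ k, B k ⊆ Metric.ball (e k) δ := fun k => disjointed_subset _ k
    have hBK : K ⊆ ⋃ k, B k := by
      rw [iUnion_disjointed]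
      intro y hy
      obtain ⟨k, hk⟩ := hcover δ hδ y hy
      exact mem_iUnion.2 ⟨k, hk⟩
    have hmsum : HasSum (fun k => μ.real (B k)) (μ.real (⋃ k, B k)) := by
      have h1 : ∑' k, μ (B k) ≠ ⊤ := by
        rw [← measure_iUnion hBd hBm]
        exact measure_ne_top _ _
      have h2 := ENNReal.hasSum_toReal h1
      have h3 : μ.real (⋃ k, B k) = ∑' k, (μ (B k)).toReal := by
        rw [measureReal_def, measure_iUnion hBd hBm, ENNReal.tsum_toReal_eq]
        exact fun k => measure_ne_top _ _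
      rw [h3]
      exact h2
    have hgeo : HasSum (fun k : ℕ => (1 / 2 : ℝ) ^ k) 2 := hasSum_geometric_two
    refine ⟨fun k => μ.real (B k) + (1 / 2) ^ k, fun k => ?_, (hmsum.add hgeo).summable, ?_, ?_⟩
    · have : 0 ≤ μ.real (B k) := measureReal_nonneg
      positivity
    · rw [(hmsum.add hgeo).tsum_eq]
      have : μ.real (⋃ k, B k) ≤ T := measureReal_mono (subset_univ _)
      linarith
    · intro hn x hx y hy
      have hbdd : BddAbove (rieszExp α x '' K) := ⟨1, by
        rintro _ ⟨z, _, rfl⟩; exact rieszExp_le_one _ _⟩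
      set S := sSup (rieszExp α x '' K) with hS
      have hyS : rieszExp α x y ≤ S := le_csSup hbdd (mem_image_of_mem _ hy)
      have hmS : m ≤ S := hlow x hx
      have hBMx := hBM n hn x hx
      have hSle : S ≤ M n * ∫ y in K, rieszExp α x y ∂μ := by
        refine le_trans (csSup_le (hKne.image _) ?_) hBMx
        rintro _ ⟨z, hz, rfl⟩
        have h1 : |rieszExp α x ((⟨z, hz⟩ : K) : E d)| ≤ ⨆ y : K, |rieszExp α x y| := by
          refine le_ciSup (f := fun y : K => |rieszExp α x y|) ⟨1, ?_⟩ ⟨z, hz⟩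
          rintro _ ⟨u, rfl⟩
          simp only
          rw [abs_of_nonneg (rieszExp_nonneg _ _)]
          exact rieszExp_le_one _ _
        exact (le_abs_self _).trans h1
      -- the integral is at most a discrete sum plus an error
      have hr : μ.restrict K = μ := by
        refine Measure.restrict_eq_self_of_ae_mem ?_
        rw [ae_iff]
        exact hμK
      have hfi : Integrable (fun y => rieszExp α x y) μ := by
        refine Integrable.of_bound (C := 1) ?_ ?_
        · exact ((rieszExp_continuous hα).comp (Continuous.prodMk_right x)).aestronglyMeasurable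
        · exact Eventually.of_forall fun y => by
            rw [Real.norm_of_nonneg (rieszExp_nonneg x y)]; exact rieszExp_le_one x y
      have hUm : MeasurableSet (⋃ k, B k) := MeasurableSet.iUnion hBm
      have hrU : μ.restrict (⋃ k, B k) = μ := by
        refine Measure.restrict_eq_self_of_ae_mem ?_
        rw [ae_iff]
        exact measure_mono_null (compl_subset_compl.2 hBK) hμK
      have hint : HasSum (fun k => ∫ y in B k, rieszExp α x y ∂μ) (∫ y, rieszExp α x y ∂μ) := by
        have := hasSum_integral_iUnion (μ := μ) (f := fun y => rieszExp α x y) hBm hBd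
          hfi.integrableOn
        rwa [hrU] at this
      have hterm : ∀ k, ∫ y in B k, rieszExp α x y ∂μ ≤
          μ.real (B k) * (rieszExp α x (e k) + η) := by
        intro k
        have h1 : ∀ᵐ y ∂(μ.restrict (B k)), rieszExp α x y ≤ rieszExp α x (e k) + η := by
          have hK' : ∀ᵐ y ∂μ, y ∈ K := by rw [ae_iff]; exact hμK
          filter_upwards [ae_restrict_mem (hBm k), ae_restrict_of_ae hK'] with y hy1 hy2
          have h2 := huc (x, y) ⟨fun j _ => hx j, hy2⟩ (x, e k) ⟨fun j _ => hx j, heK k⟩ (by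
            rw [Prod.dist_eq, dist_self]
            have := hBsub k hy1
            rw [Metric.mem_ball] at this
            exact max_lt hδ this)
          rw [Real.dist_eq] at h2
          linarith [(abs_lt.1 h2).2]
        have h3 := integral_mono_ae (hfi.integrableOn (s := B k))
          (integrable_const (rieszExp α x (e k) + η)) h1
        rw [integral_const, smul_eq_mul, measureReal_restrict_apply_univ] at h3
        exact h3
      have hsum1 : Summable fun k => (μ.real (B k) + (1 / 2) ^ k) * rieszExp α x (e k) := by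
        refine Summable.of_nonneg_of_le (fun k => ?_) (fun k => ?_) (hmsum.add hgeo).summable
        · have : 0 ≤ μ.real (B k) := measureReal_nonneg
          exact mul_nonneg (by positivity) (rieszExp_nonneg _ _)
        · have : 0 ≤ μ.real (B k) := measureReal_nonneg
          exact mul_le_of_le_one_right (by positivity) (rieszExp_le_one _ _)
      have hsum2 : Summable fun k => μ.real (B k) * η := hmsum.summable.mul_right _
      have hI : ∫ y in K, rieszExp α x y ∂μ ≤
          (∑' k, (μ.real (B k) + (1 / 2) ^ k) * rieszExp α x (e k)) + T * η := by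
        rw [hr, ← hint.tsum_eq]
        have h4 : ∀ k, ∫ y in B k, rieszExp α x y ∂μ ≤
            (μ.real (B k) + (1 / 2) ^ k) * rieszExp α x (e k) + μ.real (B k) * η := by
          intro k
          refine (hterm k).trans ?_
          have : 0 ≤ (1 / 2 : ℝ) ^ k * rieszExp α x (e k) :=
            mul_nonneg (by positivity) (rieszExp_nonneg _ _)
          nlinarith
        refine (hint.summable.tsum_le_tsum h4 (hsum1.add hsum2)).trans ?_
        rw [hsum1.tsum_add hsum2, tsum_mul_right, hmsum.tsum_eq]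
        have : μ.real (⋃ k, B k) ≤ T := measureReal_mono (subset_univ _)
        gcongr
      have hη2 : M n * (T * η) ≤ m / 2 := by
        rw [hη]
        have h5 : M n * (T * (m / (2 * M n * (T + 1)))) = m / 2 * (T / (T + 1)) := by
          field_simp
        rw [h5]
        have h6 : T / (T + 1) ≤ 1 := by
          rw [div_le_one (by positivity)]; linarith
        calc m / 2 * (T / (T + 1)) ≤ m / 2 * 1 := by gcongr
          _ = m / 2 := mul_one _
      have h7 : S ≤ M n * ((∑' k, (μ.real (B k) + (1 / 2) ^ k) * rieszExp α x (e k)) + T * η) :=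
        hSle.trans (mul_le_mul_of_nonneg_left hI hMn.le)
      rw [mul_add] at h7
      linarith
  choose w hw1 hw2 hw3 hw4 using key
  refine assemble hα hK hKne (fun _ k => e k) (fun _ k => heK k) w hw1 hw2 (T + 2) hw3
    (fun n => 2 * M n) (fun n => by have := hM n; positivity) ?_ hw4
  have h1 := (tendsto_const_div_atTop_nhds_zero_nat (Real.log 2)).add (log_tendsto hM hMt)
  rw [add_zero] at h1
  refine h1.congr fun n => ?_
  rw [Real.log_mul (by norm_num) (hM n).ne', add_div]

/-! ### Q1 : measures with bounded potential -/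

lemma kernel_measurable {d : ℕ} (α : ℝ) :
    Measurable fun p : E d × E d => ‖p.1 - p.2‖ₑ ^ (-α) := by fun_prop

lemma kernel_double {d : ℕ} {α : ℝ} (hα : 0 < α) {x x' y : E d}
    (h : ‖x' - y‖ ≤ 2 * ‖x - y‖) : ‖x - y‖ₑ ^ (-α) ≤ 2 ^ α * ‖x' - y‖ₑ ^ (-α) := by
  have h1 : ‖x' - y‖ₑ ≤ 2 * ‖x - y‖ₑ := by
    rw [← ofReal_norm, ← ofReal_norm]
    calc ENNReal.ofReal ‖x' - y‖ ≤ ENNReal.ofReal (2 * ‖x - y‖) := ENNReal.ofReal_le_ofReal h
      _ = ENNReal.ofReal 2 * ENNReal.ofReal ‖x - y‖ := ENNReal.ofReal_mul (by norm_num)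
      _ = 2 * ENNReal.ofReal ‖x - y‖ := by rw [ENNReal.ofReal_ofNat]
  have h2 : ‖x' - y‖ₑ ^ α ≤ 2 ^ α * ‖x - y‖ₑ ^ α := by
    rw [← ENNReal.mul_rpow_of_nonneg _ _ hα.le]
    exact ENNReal.rpow_le_rpow h1 hα.le
  rw [ENNReal.rpow_neg, ENNReal.rpow_neg]
  have h2a : (2 : ℝ≥0∞) ^ α ≠ 0 := by simp [ENNReal.rpow_eq_zero_iff]
  have h2b : (2 : ℝ≥0∞) ^ α ≠ ⊤ := ENNReal.rpow_ne_top_of_nonneg hα.le (by norm_num)
  have h3 : (2 ^ α * ‖x - y‖ₑ ^ α)⁻¹ ≤ (‖x' - y‖ₑ ^ α)⁻¹ := ENNReal.inv_le_inv.2 h2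
  rw [ENNReal.mul_inv (Or.inl h2a) (Or.inl h2b)] at h3
  calc (‖x - y‖ₑ ^ α)⁻¹ = 2 ^ α * ((2 ^ α)⁻¹ * (‖x - y‖ₑ ^ α)⁻¹) := by
        rw [← mul_assoc, ENNReal.mul_inv_cancel h2a h2b, one_mul]
    _ ≤ _ := by gcongr

lemma bounded_potential {d : ℕ} {α : ℝ} (hα : 0 < α) {K : Set (E d)}
    (hcap : PositiveCapacity α K) :
    ∃ σ : Measure (E d), IsProbabilityMeasure σ ∧ σ Kᶜ = 0 ∧ ∃ C : ℝ≥0∞, C ≠ ⊤ ∧
      ∀ x : E d, ∫⁻ y, ‖x - y‖ₑ ^ (-α) ∂σ ≤ C := by
  obtain ⟨ν, hν, hνK, hen⟩ := hcap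
  set U : E d → ℝ≥0∞ := fun x => ∫⁻ y, ‖x - y‖ₑ ^ (-α) ∂ν with hU
  have hUm : Measurable U := (kernel_measurable α).lintegral_prod_right'
  have hfin : ∀ᵐ x ∂ν, U x < ⊤ := ae_lt_top hUm hen.ne
  -- a level set of positive measure
  have hlev : ∃ T : ℕ, 0 < ν {x | U x ≤ T} := by
    by_contra hcon
    push Not at hcon
    have h0 : ∀ T : ℕ, ν {x | U x ≤ T} = 0 := fun T => le_antisymm (hcon T) zero_le
    have h1 : ν (⋃ T : ℕ, {x | U x ≤ T}) = 0 := measure_iUnion_null h0
    have h2 : ∀ᵐ x ∂ν, False := by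
      have h3 : ∀ᵐ x ∂ν, x ∉ ⋃ T : ℕ, {x | U x ≤ T} := measure_eq_zero_iff_ae_notMem.1 h1
      filter_upwards [h3, hfin] with x hx1 hx2
      apply hx1
      obtain ⟨T, hT⟩ := ENNReal.exists_nat_gt hx2.ne
      exact mem_iUnion.2 ⟨T, hT.le⟩
    rw [ae_iff] at h2
    simp at h2
  obtain ⟨T, hT⟩ := hlev
  have hLm : MeasurableSet {x | U x ≤ T} := measurableSet_le hUm measurable_const
  obtain ⟨A, hAsub, hAc, hApos⟩ := hLm.exists_lt_isCompact_of_ne_top (measure_ne_top ν _) hT
  have hA0 : ν A ≠ 0 := hApos.ne'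
  have hAt : ν A ≠ ⊤ := measure_ne_top ν _
  have hAne : A.Nonempty := nonempty_of_measure_ne_zero hA0
  refine ⟨(ν A)⁻¹ • ν.restrict A, ⟨?_⟩, ?_, (ν A)⁻¹ * (2 ^ α * T), ?_, ?_⟩
  · rw [Measure.smul_apply, Measure.restrict_apply_univ, smul_eq_mul,
      ENNReal.inv_mul_cancel hA0 hAt]
  · rw [Measure.smul_apply, smul_eq_mul]
    have : ν.restrict A Kᶜ = 0 := le_antisymm ((Measure.restrict_apply_le _ _).trans hνK.le) zero_le
    rw [this, mul_zero]
  · refine ENNReal.mul_ne_top (ENNReal.inv_ne_top.2 hA0) (ENNReal.mul_ne_top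
      (ENNReal.rpow_ne_top_of_nonneg hα.le (by norm_num)) (ENNReal.natCast_ne_top T))
  · intro x
    obtain ⟨x', hx'A, hx'⟩ := hAc.exists_infDist_eq_dist hAne x
    rw [lintegral_smul_measure, smul_eq_mul]
    gcongr
    calc ∫⁻ y in A, ‖x - y‖ₑ ^ (-α) ∂ν ≤ ∫⁻ y in A, 2 ^ α * ‖x' - y‖ₑ ^ (-α) ∂ν := by
          refine setLIntegral_mono' hAc.measurableSet fun y hy => ?_
          refine kernel_double hα ?_
          have h1 : dist x x' ≤ dist x y := by
            rw [← hx']; exact Metric.infDist_le_dist_of_mem hy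
          calc ‖x' - y‖ = dist x' y := (dist_eq_norm _ _).symm
            _ ≤ dist x' x + dist x y := dist_triangle _ _ _
            _ ≤ dist x y + dist x y := by
                rw [dist_comm x' x]
                gcongr
            _ = 2 * ‖x - y‖ := by rw [dist_eq_norm]; ring
      _ = 2 ^ α * ∫⁻ y in A, ‖x' - y‖ₑ ^ (-α) ∂ν := by
          rw [lintegral_const_mul _ (by fun_prop)]
      _ ≤ 2 ^ α * T := by
          gcongr
          exact (setLIntegral_le_lintegral _ _).trans (hAsub hx'A)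

/-- A point of `K` with small potential. -/
lemma low_point {d : ℕ} {α : ℝ} (hα : 0 < α) {K : Set (E d)} (hcap : PositiveCapacity α K) :
    ∃ M : ℝ, 1 ≤ M ∧ ∀ (n : ℕ) (x : Fin (n - 1) → E d),
      ∃ y ∈ K, (∀ j, y ≠ x j) ∧ ∑ j, ‖y - x j‖ ^ (-α) ≤ ((n : ℝ) + 1) * M := by
  obtain ⟨σ, hσ, hσK, C, hC, hpot⟩ := bounded_potential hα hcap
  refine ⟨max 1 C.toReal, le_max_left _ _, fun n x => ?_⟩
  have hm : ∀ j, Measurable fun y : E d => ‖y - x j‖ₑ ^ (-α) := fun j => by fun_prop
  obtain ⟨y, hyK, hy⟩ := exists_notMem_null_le_lintegral (μ := σ)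
    (f := fun y => ∑ j, ‖y - x j‖ₑ ^ (-α))
    (Finset.measurable_fun_sum _ fun j _ => hm j).aemeasurable hσK
  rw [Set.mem_compl_iff, not_not] at hyK
  rw [lintegral_finsetSum _ (fun j _ => hm j)] at hy
  have h1 : ∑ j, ∫⁻ y, ‖y - x j‖ₑ ^ (-α) ∂σ ≤ ((n - 1 : ℕ) : ℝ≥0∞) * C := by
    calc ∑ j, ∫⁻ y, ‖y - x j‖ₑ ^ (-α) ∂σ ≤ ∑ _j : Fin (n - 1), C := by
          refine Finset.sum_le_sum fun j _ => ?_
          refine le_trans (le_of_eq ?_) (hpot (x j))
          refine lintegral_congr fun y => ?_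
          rw [← enorm_neg, neg_sub]
      _ = _ := by rw [Finset.sum_const, Finset.card_univ, Fintype.card_fin, nsmul_eq_mul]
  have h2 := hy.trans h1
  have hne : ∀ j, y ≠ x j := by
    intro j hj
    have h3 : ‖y - x j‖ₑ ^ (-α) = ⊤ := by
      rw [hj, sub_self, enorm_zero, ENNReal.zero_rpow_of_neg (by linarith)]
    have h4 : ‖y - x j‖ₑ ^ (-α) ≤ ∑ j, ‖y - x j‖ₑ ^ (-α) :=
      Finset.single_le_sum (f := fun j => ‖y - x j‖ₑ ^ (-α)) (fun _ _ => zero_le)
        (Finset.mem_univ j)
    rw [h3, top_le_iff] at h4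
    rw [h4, top_le_iff] at h2
    exact ENNReal.mul_ne_top (ENNReal.natCast_ne_top _) hC h2
  refine ⟨y, hyK, hne, ?_⟩
  have h5 : ∑ j, ‖y - x j‖ₑ ^ (-α) = ENNReal.ofReal (∑ j, ‖y - x j‖ ^ (-α)) := by
    rw [ENNReal.ofReal_sum_of_nonneg (fun j _ => by positivity)]
    refine Finset.sum_congr rfl fun j _ => ?_
    rw [← ofReal_norm, ENNReal.ofReal_rpow_of_pos (norm_pos_iff.2 (sub_ne_zero.2 (hne j)))]
  rw [h5] at h2
  have h6 := ENNReal.toReal_mono (ENNReal.mul_ne_top (ENNReal.natCast_ne_top _) hC) h2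
  rw [ENNReal.toReal_ofReal (Finset.sum_nonneg fun j _ => by positivity), ENNReal.toReal_mul,
    ENNReal.toReal_natCast] at h6
  refine h6.trans ?_
  have h7 : ((n - 1 : ℕ) : ℝ) ≤ (n : ℝ) + 1 := by
    have : n - 1 ≤ n + 1 := by omega
    exact_mod_cast this
  have h8 : (0 : ℝ) ≤ C.toReal := ENNReal.toReal_nonneg
  have h9 : C.toReal ≤ max 1 C.toReal := le_max_right _ _
  gcongr

/-- Nets of polynomial size. -/
lemma net {d : ℕ} {K : Set (E d)} (hKne : K.Nonempty) {R : ℝ}
    (hKR : ∀ y ∈ K, ‖y‖ ≤ R) {s : ℝ} (hs : 0 < s) :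
    ∃ z : ℕ → E d, (∀ k, z k ∈ K) ∧ ∀ y ∈ K, ∃ k, k < (2 * (⌈s * R⌉₊ + 1) + 1) ^ d ∧
      ‖y - z k‖ ≤ Real.sqrt d / s := by
  classical
  set m : ℕ := ⌈s * R⌉₊ + 1 with hm
  obtain ⟨y0, hy0⟩ := hKne
  -- the cell of a point
  let g : E d → (Fin d → ℤ) := fun y i => ⌊s * y i⌋
  have hgb : ∀ y ∈ K, ∀ i, 0 ≤ g y i + m ∧ g y i + m < ((2 * m + 1 : ℕ) : ℤ) := by
    intro y hy i
    have h1 : |y i| ≤ R := by
      have h2 := EuclideanSpace.norm_eq y
      have h3 : ‖y i‖ ≤ ‖y‖ := PiLp.norm_apply_le y i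
      rw [Real.norm_eq_abs] at h3
      exact h3.trans (hKR y hy)
    have h4 := abs_le.1 h1
    have h5 : s * R ≤ ⌈s * R⌉₊ := Nat.le_ceil _
    have h6 : ((m : ℕ) : ℝ) = (⌈s * R⌉₊ : ℝ) + 1 := by rw [hm]; push_cast; ring
    have h7 : -(m : ℤ) ≤ g y i := by
      rw [Int.le_floor]
      push_cast
      rw [h6]
      nlinarith
    have h8 : g y i < (m : ℤ) + 1 := by
      rw [Int.floor_lt]
      push_cast
      rw [h6]
      nlinarith
    push_cast
    constructor <;> linarith
  let code : E d → (Fin d → Fin (2 * m + 1)) := fun y i => Fin.ofNat (2 * m + 1) (g y i + m).toNat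
  have hcode : ∀ y ∈ K, ∀ i, ((code y i : ℕ) : ℤ) = g y i + m := by
    intro y hy i
    have h1 := hgb y hy i
    simp only [code, Fin.ofNat]
    rw [Nat.mod_eq_of_lt (by omega)]
    exact Int.toNat_of_nonneg h1.1
  have hcard : Fintype.card (Fin d → Fin (2 * m + 1)) = (2 * m + 1) ^ d := by simp
  let eq := Fintype.equivFinOfCardEq hcard
  let z : ℕ → E d := fun k => if h : ∃ y ∈ K, (eq (code y) : ℕ) = k then h.choose else y0
  refine ⟨z, fun k => ?_, fun y hy => ?_⟩
  · simp only [z]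
    split_ifs with h
    · exact h.choose_spec.1
    · exact hy0
  · refine ⟨(eq (code y) : ℕ), (eq (code y)).2, ?_⟩
    have hex : ∃ y' ∈ K, (eq (code y') : ℕ) = (eq (code y) : ℕ) := ⟨y, hy, rfl⟩
    have hz : z (eq (code y) : ℕ) = hex.choose := by simp only [z]; rw [dif_pos hex]
    rw [hz]
    have hzK := hex.choose_spec.1
    have hzc := hex.choose_spec.2
    set y' := hex.choose
    have hcc : code y' = code y := eq.injective (Fin.ext hzc)
    have hgg : ∀ i, g y' i = g y i := by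
      intro i
      have h1 := hcode y hy i
      have h2 := hcode y' hzK i
      rw [hcc] at h2
      omega
    rw [EuclideanSpace.norm_eq, Real.sqrt_le_left (by positivity), div_pow,
      Real.sq_sqrt (by positivity)]
    calc ∑ i, ‖(y - y') i‖ ^ 2 ≤ ∑ _i : Fin d, 1 / s ^ 2 := by
          refine Finset.sum_le_sum fun i _ => ?_
          have h1 : (⌊s * y i⌋ : ℝ) ≤ s * y i := Int.floor_le _
          have h2 : s * y i < ⌊s * y i⌋ + 1 := Int.lt_floor_add_one _
          have h3 : (⌊s * y' i⌋ : ℝ) ≤ s * y' i := Int.floor_le _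
          have h4 : s * y' i < ⌊s * y' i⌋ + 1 := Int.lt_floor_add_one _
          have h5 : (⌊s * y' i⌋ : ℤ) = ⌊s * y i⌋ := hgg i
          rw [h5] at h3 h4
          have h6 : |s * (y i - y' i)| ≤ 1 := by
            rw [abs_le]; constructor <;> linarith
          rw [Real.norm_eq_abs, sq_abs, PiLp.sub_apply, le_div_iff₀ (by positivity)]
          have h7 : (s * (y i - y' i)) ^ 2 ≤ 1 := by
            rw [sq_le_one_iff_abs_le_one]; exact h6
          nlinarith
      _ = d / s ^ 2 := by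
          rw [Finset.sum_const, Finset.card_univ, Fintype.card_fin, nsmul_eq_mul]
          ring

lemma q1 {d : ℕ} {α : ℝ} (hα : 0 < α) {K : Set (E d)} (hK : IsCompact K)
    (hcap : PositiveCapacity α K) : ∃ μ : Measure (E d), HasBM α K μ ∧ IsDiscreteOn K μ := by
  obtain ⟨M, hM1, hlow⟩ := low_point hα hcap
  have hM0 : 0 < M := by linarith
  have hKne : K.Nonempty := by
    obtain ⟨y, hy, -⟩ := hlow 0 (fun j => 0)
    exact ⟨y, hy⟩
  obtain ⟨R0, hR0⟩ := hK.isBounded.exists_norm_le
  set R : ℝ := max 0 R0 with hRdef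
  have hR : 0 ≤ R := le_max_left _ _
  have hKR : ∀ y ∈ K, ‖y‖ ≤ R := fun y hy => (hR0 y hy).trans (le_max_right _ _)
  -- parameters
  let δ : ℕ → ℝ := fun n => 1 / (2 * ((n : ℝ) + 1))
  have hδ0 : ∀ n, 0 < δ n := fun n => by simp only [δ]; positivity
  have hδ1 : ∀ n, δ n ≤ 1 / 2 := fun n => by
    simp only [δ]
    apply one_div_le_one_div_of_le (by norm_num)
    have : (0 : ℝ) ≤ n := by positivity
    linarith
  let s : ℕ → ℝ := fun n => (Real.sqrt d + 1) * (2 * ((n : ℝ) + 1)) * (((n : ℝ) + 1) * M) ^ (1 / α)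
  have hs0 : ∀ n, 0 < s n := fun n => by simp only [s]; positivity
  have hnet : ∀ n, ∃ z : ℕ → E d, (∀ k, z k ∈ K) ∧
      ∀ y ∈ K, ∃ k, k < (2 * (⌈s n * R⌉₊ + 1) + 1) ^ d ∧ ‖y - z k‖ ≤ Real.sqrt d / s n :=
    fun n => net hKne hKR (hs0 n)
  choose z hzK hz using hnet
  let Nn : ℕ → ℕ := fun n => (2 * (⌈s n * R⌉₊ + 1) + 1) ^ d
  have hNpos : ∀ n, 0 < (Nn n : ℝ) := fun n => by
    have : 0 < Nn n := by simp only [Nn]; positivity
    exact_mod_cast this
  let w : ℕ → ℕ → ℝ := fun n k => (if k < Nn n then 1 / (Nn n : ℝ) else 0) + (1 / 2) ^ k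
  have hw0 : ∀ n k, 0 < w n k := fun n k => by
    simp only [w]
    have := hNpos n
    split_ifs <;> positivity
  have hw1 : ∀ n, HasSum (fun k => if k < Nn n then 1 / (Nn n : ℝ) else 0) 1 := by
    intro n
    have h1 : HasSum (fun k => if k < Nn n then 1 / (Nn n : ℝ) else 0)
        (∑ k ∈ Finset.range (Nn n), if k < Nn n then 1 / (Nn n : ℝ) else 0) := by
      refine hasSum_sum_of_ne_finset_zero fun k hk => ?_
      rw [Finset.mem_range] at hk
      rw [if_neg hk]
    have h2 : (∑ k ∈ Finset.range (Nn n), if k < Nn n then 1 / (Nn n : ℝ) else 0) = 1 := by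
      rw [Finset.sum_congr rfl (fun k hk => if_pos (Finset.mem_range.1 hk)), Finset.sum_const,
        Finset.card_range, nsmul_eq_mul, mul_one_div_cancel (hNpos n).ne']
    rwa [h2] at h1
  have hwsum : ∀ n, HasSum (w n) (1 + 2) := fun n => (hw1 n).add hasSum_geometric_two
  -- the constants
  set C1 : ℝ := 4 * (Real.sqrt d + 1) * M ^ (1 / α) * R + 5 with hC1
  have hC1pos : 0 < C1 := by positivity
  let Lb : ℕ → ℝ := fun n => C1 ^ d * ((((n : ℝ) + 1) ^ (1 + 1 / α)) ^ d)
  have hLb0 : ∀ n, 0 < Lb n := fun n => by simp only [Lb]; positivity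
  have hNL : ∀ n, (Nn n : ℝ) ≤ Lb n := by
    intro n
    simp only [Nn, Lb]
    rw [← mul_pow]
    push_cast
    refine pow_le_pow_left₀ (by positivity) ?_ d
    have h1 : (⌈s n * R⌉₊ : ℝ) < s n * R + 1 := Nat.ceil_lt_add_one (mul_nonneg (hs0 n).le hR)
    have h2 : s n * R = 2 * (Real.sqrt d + 1) * M ^ (1 / α) * R * ((n : ℝ) + 1) ^ (1 + 1 / α) := by
      simp only [s]
      rw [Real.mul_rpow (by positivity) hM0.le, Real.rpow_add (by positivity), Real.rpow_one]
      ring
    have h3 : (1 : ℝ) ≤ ((n : ℝ) + 1) ^ (1 + 1 / α) := by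
      refine Real.one_le_rpow ?_ (by positivity)
      have : (0 : ℝ) ≤ n := by positivity
      linarith
    rw [hC1, add_mul]
    nlinarith
  let ε : ℕ → ℝ := fun n => ((1 - δ n) ^ (-α) - 1) * (((n : ℝ) + 1) * M)
  let L : ℕ → ℝ := fun n => Real.exp (ε n) * Lb n
  have hL0 : ∀ n, 0 < L n := fun n => mul_pos (Real.exp_pos _) (hLb0 n)
  refine assemble hα hK hKne z hzK w hw0 (fun n => (hwsum n).summable) (1 + 2)
    (fun n => (hwsum n).tsum_eq.le) L hL0 ?_ ?_
  · -- subexponential growth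
    have h1 : Tendsto (fun n : ℕ => ε n / n) atTop (𝓝 0) := by
      have hd : Tendsto δ atTop (𝓝 0) := by
        have h2 : Tendsto (fun n : ℕ => (1 / 2 : ℝ) * (1 / ((n : ℝ) + 1))) atTop (𝓝 (1 / 2 * 0)) :=
          tendsto_one_div_add_atTop_nhds_zero_nat.const_mul _
        rw [mul_zero] at h2
        refine h2.congr fun n => ?_
        simp only [δ]
        field_simp
      have h3 : Tendsto (fun n => (1 - δ n) ^ (-α) - 1) atTop (𝓝 0) := by
        have h4 : ContinuousAt (fun t : ℝ => (1 - t) ^ (-α) - 1) 0 := by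
          refine ContinuousAt.sub ?_ continuousAt_const
          exact ContinuousAt.rpow_const (by fun_prop) (Or.inl (by norm_num))
        have h5 := h4.tendsto.comp hd
        simpa [Function.comp_def] using h5
      have h6 : Tendsto (fun n : ℕ => (((n : ℝ) + 1) / n) * M) atTop (𝓝 (1 * M)) := by
        refine Tendsto.mul_const M ?_
        have h4 : Tendsto (fun n : ℕ => 1 + 1 / (n : ℝ)) atTop (𝓝 (1 + 0)) :=
          tendsto_const_nhds.add tendsto_one_div_atTop_nhds_zero_nat
        rw [add_zero] at h4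
        refine h4.congr' ?_
        filter_upwards [eventually_gt_atTop 0] with n hn
        have : (n : ℝ) ≠ 0 := by positivity
        field_simp
      have h7 := h3.mul h6
      rw [zero_mul] at h7
      refine h7.congr fun n => ?_
      simp only [ε]
      ring
    have h2 := (h1.add (tendsto_const_div_atTop_nhds_zero_nat (d * Real.log C1))).add
      (log_succ_tendsto.const_mul (d * (1 + 1 / α)))
    rw [mul_zero, add_zero, add_zero] at h2
    refine h2.congr fun n => ?_
    simp only [L, Lb]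
    rw [Real.log_mul (Real.exp_pos _).ne' (by positivity), Real.log_exp,
      Real.log_mul (by positivity) (by positivity), Real.log_pow, Real.log_pow,
      Real.log_rpow (by positivity)]
    ring
  · -- the inequality
    intro n hn x hx y hy
    have hcont : Continuous fun y => rieszExp α x y :=
      (rieszExp_continuous hα).comp (Continuous.prodMk_right x)
    obtain ⟨p, hpK, hpmax⟩ := hK.exists_isMaxOn hKne hcont.continuousOn
    have hyp : rieszExp α x y ≤ rieszExp α x p := hpmax hy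
    obtain ⟨y0, hy0K, hy0ne, hy0⟩ := hlow n x
    have hy0p : rieszExp α x y0 ≤ rieszExp α x p := hpmax hy0K
    have hy0pos := rieszExp_pos (α := α) x y0 hy0ne
    have hpne : ∀ j, p ≠ x j := by
      intro j hj
      have : rieszExp α x p = 0 := by unfold rieszExp; rw [if_pos ⟨j, hj⟩]
      linarith
    have hval : ∀ u : E d, (∀ j, u ≠ x j) →
        rieszExp α x u = Real.exp (-∑ j, ‖u - x j‖ ^ (-α)) := by
      intro u hu
      unfold rieszExp
      rw [if_neg (by push Not; exact hu)]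
    have hUp : ∑ j, ‖p - x j‖ ^ (-α) ≤ ((n : ℝ) + 1) * M := by
      rw [hval y0 hy0ne, hval p hpne, Real.exp_le_exp] at hy0p
      linarith
    -- the points x_j are far from p
    have hfar : ∀ j, (((n : ℝ) + 1) * M) ^ (-(1 / α)) ≤ ‖p - x j‖ := by
      intro j
      have h1 : ‖p - x j‖ ^ (-α) ≤ ((n : ℝ) + 1) * M :=
        (Finset.single_le_sum (f := fun j => ‖p - x j‖ ^ (-α)) (fun _ _ => by positivity)
          (Finset.mem_univ j)).trans hUp
      have h0 : 0 < ‖p - x j‖ := norm_pos_iff.2 (sub_ne_zero.2 (hpne j))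
      have h2 : (((n : ℝ) + 1) * M) ^ (-(1 / α)) ≤ (‖p - x j‖ ^ (-α)) ^ (-(1 / α)) :=
        Real.rpow_le_rpow_of_nonpos (by positivity) h1 (by
          have : 0 < 1 / α := by positivity
          linarith)
      rw [← Real.rpow_mul h0.le] at h2
      have h3 : -α * -(1 / α) = 1 := by field_simp
      rw [h3, Real.rpow_one] at h2
      exact h2
    -- the net point
    obtain ⟨k, hk, hkz⟩ := hz n p hpK
    have hclose : ‖p - z n k‖ ≤ δ n * (((n : ℝ) + 1) * M) ^ (-(1 / α)) := by
      refine hkz.trans ?_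
      simp only [s, δ]
      rw [Real.rpow_neg (by positivity), div_le_iff₀ (by positivity)]
      have h1 : (0 : ℝ) < (((n : ℝ) + 1) * M) ^ (1 / α) := by positivity
      have h2 : 1 / (2 * ((n : ℝ) + 1)) * ((((n : ℝ) + 1) * M) ^ (1 / α))⁻¹ *
          ((Real.sqrt d + 1) * (2 * ((n : ℝ) + 1)) * (((n : ℝ) + 1) * M) ^ (1 / α)) =
          Real.sqrt d + 1 := by field_simp
      rw [h2]
      linarith
    have hdz : ∀ j, (1 - δ n) * ‖p - x j‖ ≤ ‖z n k - x j‖ := by
      intro j
      have h1 : ‖p - x j‖ ≤ ‖p - z n k‖ + ‖z n k - x j‖ := by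
        have := norm_add_le (p - z n k) (z n k - x j)
        simpa using this
      have h2 : ‖p - z n k‖ ≤ δ n * ‖p - x j‖ :=
        hclose.trans (mul_le_mul_of_nonneg_left (hfar j) (hδ0 n).le)
      linarith
    have h1δ : 0 < 1 - δ n := by have := hδ1 n; linarith
    have hzne : ∀ j, z n k ≠ x j := by
      intro j hj
      have h1 := hdz j
      rw [hj, sub_self, norm_zero] at h1
      have h0 : 0 < ‖p - x j‖ := norm_pos_iff.2 (sub_ne_zero.2 (hpne j))
      have : 0 < (1 - δ n) * ‖p - x j‖ := mul_pos h1δ h0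
      linarith
    have hUz : ∑ j, ‖z n k - x j‖ ^ (-α) ≤ (1 - δ n) ^ (-α) * ∑ j, ‖p - x j‖ ^ (-α) := by
      rw [Finset.mul_sum]
      refine Finset.sum_le_sum fun j _ => ?_
      have h0 : 0 < ‖p - x j‖ := norm_pos_iff.2 (sub_ne_zero.2 (hpne j))
      rw [← Real.mul_rpow h1δ.le h0.le]
      exact Real.rpow_le_rpow_of_nonpos (by positivity) (hdz j) (by linarith)
    have hA : 0 ≤ (1 - δ n) ^ (-α) - 1 := by
      have h1 : (1 : ℝ) ≤ (1 - δ n) ^ (-α) := by
        refine Real.one_le_rpow_of_pos_of_le_one_of_nonpos h1δ ?_ (by linarith)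
        have := hδ0 n
        linarith
      linarith
    have hexp : rieszExp α x p ≤ Real.exp (ε n) * rieszExp α x (z n k) := by
      rw [hval p hpne, hval _ hzne, ← Real.exp_add, Real.exp_le_exp]
      have h1 : ((1 - δ n) ^ (-α) - 1) * ∑ j, ‖p - x j‖ ^ (-α) ≤ ε n :=
        mul_le_mul_of_nonneg_left hUp hA
      linarith
    have hsumm : Summable fun k => w n k * rieszExp α x (z n k) := by
      refine Summable.of_nonneg_of_le (fun k => mul_nonneg (hw0 n k).le (rieszExp_nonneg _ _))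
        (fun k => ?_) (hwsum n).summable
      exact mul_le_of_le_one_right (hw0 n k).le (rieszExp_le_one _ _)
    have hone := hsumm.le_tsum k (fun j _ => mul_nonneg (hw0 n j).le (rieszExp_nonneg _ _))
    have hwk : 1 / (Nn n : ℝ) ≤ w n k := by
      simp only [w]
      rw [if_pos hk]
      have : (0 : ℝ) < (1 / 2) ^ k := by positivity
      linarith
    have hfz := rieszExp_nonneg (α := α) x (z n k)
    calc rieszExp α x y ≤ Real.exp (ε n) * rieszExp α x (z n k) := hyp.trans hexp
      _ = Real.exp (ε n) * ((Nn n : ℝ) * (1 / (Nn n : ℝ) * rieszExp α x (z n k))) := by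
          have := (hNpos n).ne'
          field_simp
      _ ≤ Real.exp (ε n) * (Lb n * ∑' k, w n k * rieszExp α x (z n k)) := by
          have h1 : 1 / (Nn n : ℝ) * rieszExp α x (z n k) ≤
              ∑' k, w n k * rieszExp α x (z n k) :=
            (mul_le_mul_of_nonneg_right hwk hfz).trans hone
          have h2 := hNL n
          have h3 := hLb0 n
          have h4 : 0 ≤ 1 / (Nn n : ℝ) * rieszExp α x (z n k) := by
            have := hNpos n
            positivity
          gcongr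
      _ = _ := by simp only [L]; ring

/-- **Q1 and Q2 both have positive answers.** Every compact set of positive Riesz `α`-capacity
carries a finite measure with the Riesz Bernstein-Markov property, which can be taken discrete;
and every nonempty compact set that carries any such measure carries a discrete one. -/
theorem result (d : ℕ) (_hd : 3 ≤ d) (α : ℝ) (hα : 0 < α) (_hαd : α < d) :
    (∀ K : Set (E d), IsCompact K → PositiveCapacity α K →
      ∃ μ : Measure (E d), HasBM α K μ ∧ IsDiscreteOn K μ) ∧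
    (∀ K : Set (E d), IsCompact K → K.Nonempty → (∃ μ : Measure (E d), HasBM α K μ) →
      ∃ μ : Measure (E d), HasBM α K μ ∧ IsDiscreteOn K μ) := by
  refine ⟨fun K hK hcap => q1 hα hK hcap, fun K hK hne ⟨μ, hμ⟩ => ?_⟩
  by_cases hfin : K.Finite
  · exact q2_finite hα hfin hne
  · exact q2_infinite hα hK hfin μ hμ

end Pool.Agent.Results.MP_a7495c_an.DiscreteBernsteinMarkov
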